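import Mathlib

set_option autoImplicit false

/-!
# Steiner triple systems, incidence graphs, minimum semidefinite rank
-/

namespace Pool.Agent.Q206.STS

open scoped ComplexOrder

/-- `B` is (the set of blocks of) a Steiner triple system on `X`. -/
structure IsSTS {X : Type} (B : Finset (Finset X)) : Prop where
  card_three : ∀ b ∈ B, b.card = 3
  cover : ∀ x y : X, x ≠ y → ∃! b, b ∈ B ∧ x ∈ b ∧ y ∈ b

/-- The incidence graph: the vertices are the points and the blocks, and the point `x` is
adjacent to the block `b` when `x ∈ b`. -/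
def incGraph {X : Type} (B : Finset (Finset X)) : SimpleGraph (X ⊕ {b // b ∈ B}) where
  Adj
    | .inl x, .inr b => x ∈ b.1
    | .inr b, .inl x => x ∈ b.1
    | _, _ => False
  symm := ⟨by rintro (x | b) (y | c) h <;> exact h⟩
  loopless := ⟨by rintro (x | b) h <;> exact h⟩

/-- `A` is a complex Hermitian positive semidefinite matrix whose off-diagonal nonzero entries are
exactly the edges of `G`. -/
def Fits {V : Type} (G : SimpleGraph V) (A : Matrix V V ℂ) : Prop :=
  A.PosSemidef ∧ ∀ i j, i ≠ j → (A i j ≠ 0 ↔ G.Adj i j)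

/-- The minimum semidefinite rank. -/
noncomputable def msr {V : Type} [Fintype V] (G : SimpleGraph V) : ℕ :=
  sInf {r | ∃ A : Matrix V V ℂ, Fits G A ∧ A.rank = r}

/-- Two Steiner triple systems are isomorphic. -/
def Iso {X Y : Type} (B : Finset (Finset X)) (C : Finset (Finset Y)) : Prop :=
  ∃ e : X ≃ Y, ∀ b, b ∈ B ↔ b.map e.toEmbedding ∈ C

/-! ## Steiner triple systems from an operation -/

/-- The third point of the block through two points. -/
structure Third {X : Type} (τ : X → X → X) : Prop where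
  comm : ∀ x y, x ≠ y → τ x y = τ y x
  ne : ∀ x y, x ≠ y → τ x y ≠ x
  inv : ∀ x y, x ≠ y → τ x (τ x y) = y

/-- The blocks `{x, y, τ x y}`. -/
def blocks {X : Type} [Fintype X] [DecidableEq X] (τ : X → X → X) : Finset (Finset X) :=
  (Finset.univ.filter fun p : X × X => p.1 ≠ p.2).image fun p => {p.1, p.2, τ p.1 p.2}

variable {X : Type} [Fintype X] [DecidableEq X] {τ : X → X → X}

lemma mem_blocks {b : Finset X} : b ∈ blocks τ ↔ ∃ x y, x ≠ y ∧ b = {x, y, τ x y} := by
  unfold blocks
  simp only [Finset.mem_image, Finset.mem_filter, Finset.mem_univ, true_and, Prod.exists]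
  constructor
  · rintro ⟨x, y, h, rfl⟩; exact ⟨x, y, h, rfl⟩
  · rintro ⟨x, y, h, rfl⟩; exact ⟨x, y, h, rfl⟩

omit [Fintype X] [DecidableEq X] in
lemma Third.ne' (h : Third τ) {x y : X} (hxy : x ≠ y) : τ x y ≠ y := by
  rw [h.comm x y hxy]; exact h.ne y x hxy.symm

/-- A block is determined by any two of its points. -/
lemma Third.eq_of_mem (h : Third τ) {b : Finset X} (hb : b ∈ blocks τ) {x y : X} (hxy : x ≠ y)
    (hx : x ∈ b) (hy : y ∈ b) : b = {x, y, τ x y} := by
  obtain ⟨p, q, hpq, rfl⟩ := mem_blocks.1 hb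
  have h1 : τ p (τ p q) = q := h.inv p q hpq
  have h2 : τ q (τ p q) = p := by rw [h.comm p q hpq]; exact h.inv q p hpq.symm
  have h3 : τ (τ p q) p = q := by rw [h.comm _ _ (h.ne p q hpq)]; exact h1
  have h4 : τ (τ p q) q = p := by rw [h.comm _ _ (h.ne' hpq)]; exact h2
  have h5 : τ q p = τ p q := (h.comm p q hpq).symm
  simp only [Finset.mem_insert, Finset.mem_singleton] at hx hy
  rcases hx with rfl | rfl | rfl <;> rcases hy with rfl | rfl | rfl
  · exact absurd rfl hxy
  · rfl
  · rw [h1]; ext z; simp only [Finset.mem_insert, Finset.mem_singleton]; tauto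
  · rw [h5]; ext z; simp only [Finset.mem_insert, Finset.mem_singleton]; tauto
  · exact absurd rfl hxy
  · rw [h2]; ext z; simp only [Finset.mem_insert, Finset.mem_singleton]; tauto
  · rw [h3]; ext z; simp only [Finset.mem_insert, Finset.mem_singleton]; tauto
  · rw [h4]; ext z; simp only [Finset.mem_insert, Finset.mem_singleton]; tauto
  · exact absurd rfl hxy

lemma Third.isSTS (h : Third τ) : IsSTS (blocks τ) where
  card_three b hb := by
    obtain ⟨p, q, hpq, rfl⟩ := mem_blocks.1 hb
    rw [Finset.card_eq_three]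
    exact ⟨p, q, τ p q, hpq, (h.ne p q hpq).symm, (h.ne' hpq).symm, rfl⟩
  cover x y hxy := by
    refine ⟨{x, y, τ x y}, ⟨mem_blocks.2 ⟨x, y, hxy, rfl⟩, by simp, by simp⟩, ?_⟩
    rintro b ⟨hb, hx, hy⟩
    exact h.eq_of_mem hb hxy hx hy

end Pool.Agent.Q206.STS
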