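import Mathlib
import Pool.Agent.Q206.STS.Defs

set_option autoImplicit false

/-!
# Upper bound for the minimum semidefinite rank from a Gram matrix with negative block products
-/

namespace Pool.Agent.Q206.STS

open scoped ComplexOrder
open Matrix

variable {X : Type} [Fintype X] [DecidableEq X] {B : Finset (Finset X)}

omit [Fintype X] in
/-- The coefficients of one block. -/
lemma coeffs (hB : IsSTS B) (R : X → X → ℝ) (hsym : ∀ x y, R x y = R y x)
    (hneg : ∀ x y z, ({x, y, z} : Finset X) ∈ B → x ≠ y → x ≠ z → y ≠ z →
      R x y * R y z * R z x < 0) (b : Finset X) (hb : b ∈ B) :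
    ∃ c : X → ℝ, (∀ x, c x ≠ 0 ↔ x ∈ b) ∧ ∀ x ∈ b, ∀ y ∈ b, x ≠ y → c x * c y = - R x y := by
  obtain ⟨x, y, z, hxy, hxz, hyz, rfl⟩ := Finset.card_eq_three.1 (hB.card_three b hb)
  have hn := hneg x y z hb hxy hxz hyz
  set t := Real.sqrt (-(R x y * R y z * R z x)) with ht
  have ht0 : 0 < t := Real.sqrt_pos.2 (by linarith)
  have htt : t * t = -(R x y * R y z * R z x) := Real.mul_self_sqrt (by linarith)
  have h1 : R x y ≠ 0 := by rintro h; rw [h] at hn; simp at hn
  have h2 : R y z ≠ 0 := by rintro h; rw [h] at hn; simp at hn
  have h3 : R z x ≠ 0 := by rintro h; rw [h] at hn; simp at hn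
  have e1 : (t / R y z) * (t / R z x) = - R x y := by
    rw [div_mul_div_comm, htt]; field_simp
  have e2 : (t / R z x) * (t / R x y) = - R y z := by
    rw [div_mul_div_comm, htt]; field_simp
  have e3 : (t / R x y) * (t / R y z) = - R z x := by
    rw [div_mul_div_comm, htt]; field_simp
  refine ⟨fun w => if w = x then t / R y z else if w = y then t / R z x else
    if w = z then t / R x y else 0, ?_, ?_⟩
  · intro w
    simp only [Finset.mem_insert, Finset.mem_singleton]
    by_cases hwx : w = x
    · subst hwx
      simp only [if_true, true_or, iff_true]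
      exact div_ne_zero ht0.ne' h2
    · by_cases hwy : w = y
      · subst hwy
        simp only [hwx, if_false, if_true, true_or, or_true, iff_true]
        exact div_ne_zero ht0.ne' h3
      · by_cases hwz : w = z
        · subst hwz
          simp only [hwx, hwy, if_false, if_true, or_true, iff_true]
          exact div_ne_zero ht0.ne' h1
        · simp [hwx, hwy, hwz]
  · intro u hu v hv huv
    simp only [Finset.mem_insert, Finset.mem_singleton] at hu hv
    rcases hu with rfl | rfl | rfl <;> rcases hv with rfl | rfl | rfl
    · exact absurd rfl huv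
    · simp only [if_true, hxy.symm, if_false]; exact e1
    · simp only [if_true, hxz.symm, hyz.symm, if_false]; rw [mul_comm, e3, hsym]
    · simp only [if_true, hxy.symm, if_false]; rw [mul_comm, e1, hsym]
    · exact absurd rfl huv
    · simp only [if_true, hxy.symm, hxz.symm, hyz.symm, if_false]; exact e2
    · simp only [if_true, hxz.symm, hyz.symm, if_false]; exact e3
    · simp only [if_true, hxy.symm, hxz.symm, hyz.symm, if_false]; rw [mul_comm, e2, hsym]
    · exact absurd rfl huv

/-- The upper bound. `V` is the list of the feature vectors. -/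
theorem msr_le (hB : IsSTS B) {ι : Type} [Fintype ι] (V : Matrix X ι ℝ)
    (hneg : ∀ x y z, ({x, y, z} : Finset X) ∈ B → x ≠ y → x ≠ z → y ≠ z →
      (V * Vᵀ) x y * (V * Vᵀ) y z * (V * Vᵀ) z x < 0) :
    msr (incGraph B) ≤ B.card + Fintype.card ι := by
  classical
  set R : Matrix X X ℝ := V * Vᵀ with hR
  have hsym : ∀ x y, R x y = R y x := by
    intro x y
    simp only [hR, Matrix.mul_apply, Matrix.transpose_apply]
    exact Finset.sum_congr rfl fun i _ => mul_comm _ _
  have hc := fun b : {b // b ∈ B} => coeffs hB R hsym hneg b.1 b.2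
  choose c hc1 hc2 using hc
  -- the feature matrix
  let F : Matrix (X ⊕ {b // b ∈ B}) (ι ⊕ {b // b ∈ B}) ℝ := fun i j =>
    match i, j with
    | .inl x, .inl k => V x k
    | .inl x, .inr b => c b x
    | .inr _, .inl _ => 0
    | .inr b, .inr b' => if b = b' then 1 else 0
  let Fc : Matrix (X ⊕ {b // b ∈ B}) (ι ⊕ {b // b ∈ B}) ℂ := F.map (fun a => (a : ℂ))
  let A := Fc * Fcᴴ
  have hA : ∀ i j, A i j = ((∑ k, F i k * F j k : ℝ) : ℂ) := by
    intro i j
    simp only [A, Fc, Matrix.mul_apply, Matrix.conjTranspose_apply, Matrix.map_apply,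
      RCLike.star_def, Complex.conj_ofReal]
    push_cast
    rfl
  have hPSD : A.PosSemidef := Matrix.posSemidef_self_mul_conjTranspose _
  have hfit : Fits (incGraph B) A := by
    refine ⟨hPSD, ?_⟩
    intro i j hij
    rw [hA, Complex.ofReal_ne_zero]
    rcases i with x | b <;> rcases j with y | b'
    · -- two points
      have hxy : x ≠ y := fun h => hij (by rw [h])
      obtain ⟨b, ⟨hb, hxb, hyb⟩, hu⟩ := hB.cover x y hxy
      have hsum : (∑ k, F (.inl x) k * F (.inl y) k) = 0 := by
        rw [Fintype.sum_sum_type]
        have e1 : (∑ k : ι, F (.inl x) (.inl k) * F (.inl y) (.inl k)) = R x y := by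
          simp only [hR, Matrix.mul_apply, Matrix.transpose_apply]
          rfl
        have e2 : (∑ k : {b // b ∈ B}, F (.inl x) (.inr k) * F (.inl y) (.inr k)) = - R x y := by
          rw [Finset.sum_eq_single (⟨b, hb⟩ : {b // b ∈ B})]
          · exact hc2 ⟨b, hb⟩ x hxb y hyb hxy
          · intro b' _ hne
            by_contra hcon
            have h1 : c b' x ≠ 0 := fun h => hcon (by show c b' x * c b' y = 0; rw [h, zero_mul])
            have h2 : c b' y ≠ 0 := fun h => hcon (by show c b' x * c b' y = 0; rw [h, mul_zero])
            exact hne (Subtype.ext (hu b'.1 ⟨b'.2, (hc1 b' x).1 h1, (hc1 b' y).1 h2⟩))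
          · intro h; exact absurd (Finset.mem_univ _) h
        rw [e1, e2]; ring
      rw [hsum]
      simp [incGraph]
    · -- a point and a block
      have hsum : (∑ k, F (.inl x) k * F (.inr b') k) = c b' x := by
        rw [Fintype.sum_sum_type]
        have e1 : (∑ k : ι, F (.inl x) (.inl k) * F (.inr b') (.inl k)) = 0 := by
          apply Finset.sum_eq_zero; intro k _; show V x k * 0 = 0; ring
        rw [e1, zero_add, Finset.sum_eq_single b']
        · show c b' x * (if b' = b' then 1 else 0) = c b' x
          simp
        · intro b'' _ hne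
          show c b'' x * (if b' = b'' then 1 else 0) = 0
          rw [if_neg hne.symm, mul_zero]
        · intro h; exact absurd (Finset.mem_univ _) h
      rw [hsum]
      exact hc1 b' x
    · have hsum : (∑ k, F (.inr b) k * F (.inl y) k) = c b y := by
        rw [Fintype.sum_sum_type]
        have e1 : (∑ k : ι, F (.inr b) (.inl k) * F (.inl y) (.inl k)) = 0 := by
          apply Finset.sum_eq_zero; intro k _; show 0 * V y k = 0; ring
        rw [e1, zero_add, Finset.sum_eq_single b]
        · show (if b = b then 1 else 0) * c b y = c b y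
          simp
        · intro b'' _ hne
          show (if b = b'' then 1 else 0) * c b'' y = 0
          rw [if_neg hne.symm, zero_mul]
        · intro h; exact absurd (Finset.mem_univ _) h
      rw [hsum]
      exact hc1 b y
    · have hbb : b ≠ b' := fun h => hij (by rw [h])
      have hsum : (∑ k, F (.inr b) k * F (.inr b') k) = 0 := by
        rw [Fintype.sum_sum_type]
        have e1 : (∑ k : ι, F (.inr b) (.inl k) * F (.inr b') (.inl k)) = 0 := by
          apply Finset.sum_eq_zero; intro k _; show (0:ℝ) * 0 = 0; ring
        have e2 : (∑ k : {b // b ∈ B}, F (.inr b) (.inr k) * F (.inr b') (.inr k)) = 0 := by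
          apply Finset.sum_eq_zero; intro k _
          show (if b = k then (1:ℝ) else 0) * (if b' = k then 1 else 0) = 0
          by_cases h : b = k
          · rw [if_neg (show ¬ b' = k from fun h' => hbb (h.trans h'.symm)), mul_zero]
          · rw [if_neg h, zero_mul]
        rw [e1, e2, add_zero]
      rw [hsum]
      simp [incGraph]
  have hrank : A.rank ≤ B.card + Fintype.card ι := by
    refine (Matrix.rank_mul_le_left _ _).trans ((Matrix.rank_le_card_width _).trans ?_)
    rw [Fintype.card_sum, Fintype.card_coe]
    omega
  have h0 : msr (incGraph B) ≤ A.rank := Nat.sInf_le ⟨A, hfit, rfl⟩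
  exact h0.trans hrank

end Pool.Agent.Q206.STS
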