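import Mathlib
import Pool.Agent.Q206.STS.Upper

set_option autoImplicit false

/-!
# The Bose triple systems
-/

namespace Pool.Agent.Q206.STS

open Matrix

/-- The third point of a block of the Bose system of order `3 n`, `n` odd; `h` is the inverse of
`2` modulo `n`. -/
def bτ (n : ℕ) (h : ZMod n) (p q : ZMod n × Fin 3) : ZMod n × Fin 3 :=
  if p.2 = q.2 then (h * (p.1 + q.1), p.2 + 1)
  else if p.1 = q.1 then (p.1, -(p.2 + q.2))
  else if q.2 = p.2 + 1 then (2 * q.1 - p.1, p.2)
  else (2 * p.1 - q.1, q.2)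

section

variable {n : ℕ} {h : ZMod n} (hh : 2 * h = 1)

include hh in
lemma two_inj {x y : ZMod n} (hxy : 2 * x = 2 * y) : x = y := by
  have : (2 * h) * x = (2 * h) * y := by linear_combination h * hxy
  rwa [hh, one_mul, one_mul] at this

lemma fin3_next : ∀ i j : Fin 3, i ≠ j → j ≠ i + 1 → i = j + 1 := by decide
lemma fin3_a : ∀ i : Fin 3, i ≠ i + 1 := by decide
lemma fin3_b : ∀ i : Fin 3, i ≠ i + 1 + 1 := by decide
lemma fin3_c : ∀ i j : Fin 3, i ≠ j → -(i + j) ≠ i := by decide
lemma fin3_d : ∀ i j : Fin 3, -(i + -(i + j)) = j := by decide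
lemma fin3_e : ∀ i j : Fin 3, -(i + j) = -(j + i) := by decide

lemma bτ_same {x y : ZMod n} {i : Fin 3} : bτ n h (x, i) (y, i) = (h * (x + y), i + 1) := by
  simp [bτ]

lemma bτ_col {x : ZMod n} {i j : Fin 3} (hij : i ≠ j) :
    bτ n h (x, i) (x, j) = (x, -(i + j)) := by
  simp [bτ, hij]

lemma bτ_next {x z : ZMod n} {i : Fin 3} (hxz : x ≠ z) :
    bτ n h (x, i) (z, i + 1) = (2 * z - x, i) := by
  simp only [bτ, fin3_a i, if_false, hxz, if_true]

lemma bτ_prev {x z : ZMod n} {i : Fin 3} (hxz : z ≠ x) :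
    bτ n h (z, i + 1) (x, i) = (2 * z - x, i) := by
  simp only [bτ, (fin3_a i).symm, if_false, hxz, fin3_b i]

include hh in
theorem bτ_third : Third (bτ n h) where
  comm p q hpq := by
    obtain ⟨x, i⟩ := p
    obtain ⟨y, j⟩ := q
    by_cases hij : i = j
    · subst hij; rw [bτ_same, bτ_same, add_comm]
    · by_cases hxy : x = y
      · subst hxy; rw [bτ_col hij, bτ_col (Ne.symm hij), fin3_e]
      · by_cases hj : j = i + 1
        · subst hj; rw [bτ_next hxy, bτ_prev (Ne.symm hxy)]
        · have := fin3_next i j hij hj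
          subst this
          rw [bτ_next (Ne.symm hxy), bτ_prev hxy]
  ne p q hpq := by
    obtain ⟨x, i⟩ := p
    obtain ⟨y, j⟩ := q
    by_cases hij : i = j
    · subst hij; rw [bτ_same]
      intro e; exact fin3_a i (congrArg Prod.snd e).symm
    · by_cases hxy : x = y
      · subst hxy; rw [bτ_col hij]
        intro e; exact fin3_c i j hij (congrArg Prod.snd e)
      · by_cases hj : j = i + 1
        · subst hj; rw [bτ_next hxy]
          intro e
          have e1 : 2 * y - x = x := congrArg Prod.fst e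
          exact hxy (two_inj hh (by linear_combination -e1))
        · have := fin3_next i j hij hj
          subst this
          rw [bτ_prev hxy]
          intro e; exact fin3_a j (congrArg Prod.snd e)
  inv p q hpq := by
    obtain ⟨x, i⟩ := p
    obtain ⟨y, j⟩ := q
    by_cases hij : i = j
    · subst hij
      have hxy : x ≠ y := fun e => hpq (by rw [e])
      rw [bτ_same, bτ_next]
      · refine Prod.ext ?_ rfl
        show 2 * (h * (x + y)) - x = y
        linear_combination (x + y) * hh
      · intro e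
        exact hxy (by linear_combination 2 * e + (x + y) * hh)
    · by_cases hxy : x = y
      · subst hxy
        rw [bτ_col hij, bτ_col (fin3_c i j hij).symm, fin3_d]
      · by_cases hj : j = i + 1
        · subst hj
          rw [bτ_next hxy, bτ_same]
          refine Prod.ext ?_ rfl
          show h * (x + (2 * y - x)) = y
          linear_combination y * hh
        · have := fin3_next i j hij hj
          subst this
          rw [bτ_prev hxy, bτ_prev]
          · refine Prod.ext ?_ rfl
            show 2 * x - (2 * x - y) = y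
            ring
          · intro e
            exact hxy (by linear_combination -e)

end

/-! ## The Gram matrix -/

/-- Cosine and sine on `ZMod n`. -/
structure Trig (n : ℕ) where
  c : ZMod n → ℝ
  s : ZMod n → ℝ
  hc : ∀ x y, c x * c y + s x * s y = c (x - y)
  hs : ∀ x y, s x * c y - c x * s y = s (x - y)
  hc1 : ∀ x, -1 ≤ c x
  hodd : ∀ x, s (-x) = - s x
  hs0 : s 0 = 0
  hsne : ∀ x, x ≠ 0 → s x ≠ 0

lemma exists_trig (n : ℕ) [NeZero n] {h : ZMod n} (hh : 2 * h = 1) : Nonempty (Trig n) := by
  let e : ZMod n → ℂ := fun x => ZMod.stdAddChar x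
  have hadd : ∀ x y, e (x + y) = e x * e y := fun x y => AddChar.map_add_eq_mul _ x y
  have hnorm : ∀ x, ‖e x‖ = 1 := fun x => by
    show ‖(ZMod.stdAddChar x : ℂ)‖ = 1
    rw [ZMod.stdAddChar_apply]
    exact Circle.norm_coe _
  have hneg : ∀ x, e (-x) = (starRingEnd ℂ) (e x) := by
    intro x
    have h1 : e (-x) * e x = 1 := by
      rw [← hadd, neg_add_cancel]
      exact AddChar.map_zero_eq_one _
    have h2 : (starRingEnd ℂ) (e x) * e x = 1 := by
      rw [mul_comm, Complex.mul_conj, Complex.normSq_eq_norm_sq, hnorm]; norm_num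
    have h3 : e x ≠ 0 := by
      intro h0
      have := hnorm x
      rw [h0, norm_zero] at this
      exact zero_ne_one this
    exact mul_right_cancel₀ h3 (h1.trans h2.symm)
  have hsub : ∀ x y, e (x - y) = e x * (starRingEnd ℂ) (e y) := by
    intro x y
    rw [sub_eq_add_neg, hadd, hneg]
  refine ⟨⟨fun x => (e x).re, fun x => (e x).im, ?_, ?_, ?_, ?_, ?_, ?_⟩⟩
  · intro x y
    rw [hsub, Complex.mul_re, Complex.conj_re, Complex.conj_im]; ring
  · intro x y
    rw [hsub, Complex.mul_im, Complex.conj_re, Complex.conj_im]; ring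
  · intro x
    have := Complex.abs_re_le_norm (e x)
    rw [hnorm, abs_le] at this
    exact this.1
  · intro x
    rw [hneg, Complex.conj_im]
  · have : e 0 = 1 := AddChar.map_zero_eq_one _
    show (e 0).im = 0
    rw [this]; simp
  · intro x hx h0
    have h1 : e (-x) = e x := by
      rw [hneg]
      exact Complex.conj_eq_iff_im.2 h0
    have h2 : -x = x := ZMod.injective_stdAddChar h1
    apply hx
    apply two_inj hh
    linear_combination -h2

variable {n : ℕ} (T : Trig n) (a b : ℝ)

/-- The feature vectors. -/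
def feat : Matrix (ZMod n × Fin 3) (Fin 3 ⊕ (Fin 3 ⊕ Fin 3)) ℝ := fun p k =>
  match k with
  | .inl k => if p.2 = k then a else -b
  | .inr (.inl k) => (if p.2 = k then T.s p.1 else 0) + (if p.2 = k + 1 then T.c p.1 else 0)
  | .inr (.inr k) => (if p.2 = k then T.c p.1 else 0) - (if p.2 = k + 1 then T.s p.1 else 0)

lemma gram_same (x y : ZMod n) (i : Fin 3) :
    (feat T a b * (feat T a b)ᵀ) (x, i) (y, i) = a ^ 2 + 2 * b ^ 2 + 2 * T.c (x - y) := by
  rw [← T.hc, Matrix.mul_apply]
  simp only [Fintype.sum_sum_type, Fin.sum_univ_three, Matrix.transpose_apply, feat]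
  fin_cases i <;> simp <;> ring

lemma gram_next (x z : ZMod n) (i : Fin 3) :
    (feat T a b * (feat T a b)ᵀ) (x, i) (z, i + 1) = T.s (x - z) - b * (2 * a - b) := by
  rw [← T.hs, Matrix.mul_apply]
  simp only [Fintype.sum_sum_type, Fin.sum_univ_three, Matrix.transpose_apply, feat]
  fin_cases i <;> simp <;> ring

lemma gram_symm (p q : ZMod n × Fin 3) :
    (feat T a b * (feat T a b)ᵀ) p q = (feat T a b * (feat T a b)ᵀ) q p := by
  rw [Matrix.mul_apply, Matrix.mul_apply]
  exact Finset.sum_congr rfl fun k _ => by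
    rw [Matrix.transpose_apply, Matrix.transpose_apply, mul_comm]

end Pool.Agent.Q206.STS

namespace Pool.Agent.Q206.STS

open Matrix

section

variable {n : ℕ} [NeZero n] {h : ZMod n} (hh : 2 * h = 1) (T : Trig n) {b ε : ℝ}

include hh in
lemma key_same (hb : 0 < b) (hε : b * (2 * 2 - b) = ε) (hε0 : 0 < ε)
    (hm : ∀ x : ZMod n, x ≠ 0 → ε < |T.s x|) {x y : ZMod n} (hxy : x ≠ y) (i : Fin 3) :
    (feat T 2 b * (feat T 2 b)ᵀ) (x, i) (y, i) *
      (feat T 2 b * (feat T 2 b)ᵀ) (x, i) (h * (x + y), i + 1) *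
      (feat T 2 b * (feat T 2 b)ᵀ) (y, i) (h * (x + y), i + 1) < 0 := by
  rw [gram_same, gram_next, gram_next, hε]
  have e1 : x - h * (x + y) = h * (x - y) := by linear_combination (-x) * hh
  have e2 : y - h * (x + y) = -(h * (x - y)) := by linear_combination (-y) * hh
  have hne : h * (x - y) ≠ 0 := by
    intro h0
    apply hxy
    have : (2 * h) * (x - y) = 0 := by rw [mul_assoc, h0, mul_zero]
    rw [hh, one_mul] at this
    exact sub_eq_zero.1 this
  rw [e1, e2, T.hodd]
  have h1 := hm _ hne
  have h2 := T.hc1 (x - y)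
  set t := T.s (h * (x - y))
  have h3 : ε ^ 2 < t ^ 2 := by
    rw [← sq_abs t]
    exact pow_lt_pow_left₀ h1 hε0.le (by norm_num)
  have h4 : (t - ε) * (-t - ε) < 0 := by nlinarith
  have h5 : 0 < (2:ℝ) ^ 2 + 2 * b ^ 2 + 2 * T.c (x - y) := by nlinarith [sq_nonneg b]
  calc _ = ((2:ℝ) ^ 2 + 2 * b ^ 2 + 2 * T.c (x - y)) * ((t - ε) * (-t - ε)) := by ring
    _ < 0 := mul_neg_of_pos_of_neg h5 h4

lemma gram_col (hε : b * (2 * 2 - b) = ε) (x : ZMod n) {i j : Fin 3} (hij : i ≠ j) :
    (feat T 2 b * (feat T 2 b)ᵀ) (x, i) (x, j) = -ε := by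
  by_cases hj : j = i + 1
  · subst hj
    rw [gram_next, hε, sub_self, T.hs0, zero_sub]
  · have := fin3_next i j hij hj
    subst this
    rw [gram_symm, gram_next, hε, sub_self, T.hs0, zero_sub]

include hh in
/-- All block products are negative. -/
lemma block_neg (hb : 0 < b) (hε : b * (2 * 2 - b) = ε) (hε0 : 0 < ε)
    (hm : ∀ x : ZMod n, x ≠ 0 → ε < |T.s x|) {p q : ZMod n × Fin 3} (hpq : p ≠ q) :
    (feat T 2 b * (feat T 2 b)ᵀ) p q * (feat T 2 b * (feat T 2 b)ᵀ) q (bτ n h p q) *
      (feat T 2 b * (feat T 2 b)ᵀ) (bτ n h p q) p < 0 := by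
  obtain ⟨x, i⟩ := p
  obtain ⟨y, j⟩ := q
  by_cases hij : i = j
  · subst hij
    have hxy : x ≠ y := fun e => hpq (by rw [e])
    have := key_same hh T hb hε hε0 hm hxy i
    rw [bτ_same, gram_symm T 2 b (h * (x + y), i + 1) (x, i)]
    linarith [this]
  · by_cases hxy : x = y
    · subst hxy
      rw [bτ_col hij, gram_col T hε x hij, gram_col T hε x (i := j), gram_col T hε x (fin3_c i j hij)]
      · have : 0 < ε ^ 3 := by positivity
        nlinarith
      · rw [fin3_e]
        exact (fin3_c j i (Ne.symm hij)).symm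
    · by_cases hj : j = i + 1
      · subst hj
        rw [bτ_next hxy]
        have hne : x ≠ 2 * y - x := by
          intro e
          exact hxy (two_inj hh (by linear_combination e))
        have := key_same hh T hb hε hε0 hm hne i
        have e1 : h * (x + (2 * y - x)) = y := by linear_combination y * hh
        rw [e1] at this
        rw [gram_symm T 2 b (y, i + 1) (2 * y - x, i), gram_symm T 2 b (2 * y - x, i) (x, i)]
        linarith [this]
      · have := fin3_next i j hij hj
        subst this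
        rw [bτ_prev hxy]
        have hne : y ≠ 2 * x - y := by
          intro e
          exact hxy (two_inj hh (by linear_combination -e))
        have := key_same hh T hb hε hε0 hm hne j
        have e1 : h * (y + (2 * x - y)) = x := by linear_combination x * hh
        rw [e1] at this
        rw [gram_symm T 2 b (x, j + 1) (y, j)]
        linarith [this]

end

/-- The blocks of the Bose system. -/
def boseB (n : ℕ) [NeZero n] (h : ZMod n) : Finset (Finset (ZMod n × Fin 3)) := blocks (bτ n h)

lemma boseB_isSTS (n : ℕ) [NeZero n] {h : ZMod n} (hh : 2 * h = 1) : IsSTS (boseB n h) :=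
  (bτ_third hh).isSTS

/-- The minimum semidefinite rank of the Bose systems. -/
theorem msr_bose (n : ℕ) [NeZero n] {h : ZMod n} (hh : 2 * h = 1) :
    msr (incGraph (boseB n h)) ≤ (boseB n h).card + 9 := by
  obtain ⟨T⟩ := exists_trig n hh
  obtain ⟨m, hm0, hm⟩ : ∃ m : ℝ, 0 < m ∧ ∀ x : ZMod n, x ≠ 0 → m ≤ |T.s x| := by
    by_cases hne : (Finset.univ.filter fun x : ZMod n => x ≠ 0).Nonempty
    · obtain ⟨x0, hx0, hmin⟩ := Finset.exists_min_image _ (fun x => |T.s x|) hne
      refine ⟨|T.s x0|, abs_pos.2 (T.hsne x0 (Finset.mem_filter.1 hx0).2), fun x hx => ?_⟩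
      exact hmin x (Finset.mem_filter.2 ⟨Finset.mem_univ _, hx⟩)
    · refine ⟨1, one_pos, fun x hx => ?_⟩
      exact absurd ⟨x, Finset.mem_filter.2 ⟨Finset.mem_univ _, hx⟩⟩ hne
  set b := min 1 (m / 8) with hb
  have hb0 : 0 < b := lt_min one_pos (by linarith)
  have hb1 : b ≤ 1 := min_le_left _ _
  have hb2 : b ≤ m / 8 := min_le_right _ _
  have hε0 : 0 < b * (2 * 2 - b) := mul_pos hb0 (by linarith)
  have hεm : b * (2 * 2 - b) < m := by nlinarith
  have hle := msr_le (boseB_isSTS n hh) (feat T 2 b) (by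
    intro x y z hb' hxy hxz hyz
    have h1 := (bτ_third hh).eq_of_mem hb' hxy (by simp) (by simp)
    have h2 : z ∈ ({x, y, bτ n h x y} : Finset (ZMod n × Fin 3)) := by
      rw [← h1]; simp
    simp only [Finset.mem_insert, Finset.mem_singleton] at h2
    rcases h2 with h2 | h2 | h2
    · exact absurd h2.symm hxz
    · exact absurd h2.symm hyz
    · subst h2
      exact block_neg hh T hb0 rfl hε0 (fun x hx => hεm.trans_le (hm x hx)) hxy)
  simpa using hle

end Pool.Agent.Q206.STS
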