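import Mathlib
import Pool.Agent.Q206.STS.Defs

set_option autoImplicit false

/-!
# Lower bound for the minimum semidefinite rank from monochromatic blocks
-/

namespace Pool.Agent.Q206.STS

open scoped ComplexOrder InnerProductSpace MatrixOrder
open Matrix

/-- Vectors realising a matrix that fits the incidence graph. -/
lemma exists_vectors {N : Type} [Fintype N] [DecidableEq N] {A : Matrix N N ℂ}
    (hA : A.PosSemidef) : ∃ w : N → EuclideanSpace ℂ N, (∀ i j, ⟪w i, w j⟫_ℂ = A i j) ∧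
      Module.finrank ℂ (Submodule.span ℂ (Set.range w)) = A.rank := by
  obtain ⟨C, hC⟩ : ∃ C : Matrix N N ℂ, A = Cᴴ * C := by
    obtain ⟨C, hC⟩ := CStarAlgebra.nonneg_iff_eq_star_mul_self.mp hA.nonneg
    exact ⟨C, hC⟩
  refine ⟨fun i => WithLp.toLp 2 (fun k => C k i), ?_, ?_⟩
  · intro i j
    rw [hC]
    simp only [Matrix.mul_apply, Matrix.conjTranspose_apply, EuclideanSpace.inner_eq_star_dotProduct]
    simp [dotProduct, mul_comm]
  · have h1 : A.rank = C.rank := by rw [hC, Matrix.rank_conjTranspose_mul_self]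
    rw [h1, Matrix.rank_eq_finrank_span_cols]
    have h2 : Set.range (fun i => (WithLp.toLp 2 (fun k => C k i) : EuclideanSpace ℂ N)) =
        (WithLp.linearEquiv 2 ℂ (N → ℂ)).symm '' Set.range C.col := by
      rw [← Set.range_comp]
      rfl
    rw [h2]
    have h3 := Submodule.map_span (WithLp.linearEquiv 2 ℂ (N → ℂ)).symm.toLinearMap
      (Set.range C.col)
    have h4 : Submodule.span ℂ ((WithLp.linearEquiv 2 ℂ (N → ℂ)).symm '' Set.range C.col) =
        Submodule.map (WithLp.linearEquiv 2 ℂ (N → ℂ)).symm.toLinearMap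
          (Submodule.span ℂ (Set.range C.col)) := h3.symm
    rw [h4]
    exact LinearEquiv.finrank_map_eq _ _

end Pool.Agent.Q206.STS

namespace Pool.Agent.Q206.STS

open scoped ComplexOrder InnerProductSpace MatrixOrder
open Matrix

/-- Every graph has a fitting matrix. -/
lemma exists_fits {V : Type} [Fintype V] (G : SimpleGraph V) : ∃ A : Matrix V V ℂ, Fits G A := by
  classical
  let M : Matrix V (Sym2 V) ℂ := fun v e => if v ∈ e ∧ e ∈ G.edgeSet then 1 else 0
  refine ⟨M * Mᴴ, Matrix.posSemidef_self_mul_conjTranspose _, ?_⟩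
  intro i j hij
  have h1 : (M * Mᴴ) i j = if G.Adj i j then 1 else 0 := by
    rw [Matrix.mul_apply, Finset.sum_eq_single s(i, j)]
    · simp only [M, Matrix.conjTranspose_apply, Sym2.mem_mk_left, Sym2.mem_mk_right, true_and,
        SimpleGraph.mem_edgeSet]
      by_cases h : G.Adj i j <;> simp [h]
    · intro e _ he
      simp only [M, Matrix.conjTranspose_apply]
      by_cases hi : i ∈ e
      · by_cases hj : j ∈ e
        · exact absurd ((Sym2.mem_and_mem_iff hij).1 ⟨hi, hj⟩) he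
        · simp [hj]
      · simp [hi]
    · intro h; exact absurd (Finset.mem_univ _) h
  rw [h1]
  by_cases h : G.Adj i j <;> simp [h]

lemma exists_rank {V : Type} [Fintype V] (G : SimpleGraph V) :
    ∃ A : Matrix V V ℂ, Fits G A ∧ A.rank = msr G := by
  have h : {r | ∃ A : Matrix V V ℂ, Fits G A ∧ A.rank = r}.Nonempty := by
    obtain ⟨A, hA⟩ := exists_fits G
    exact ⟨A.rank, A, hA, rfl⟩
  exact Nat.sInf_mem h

/-- Reduction to vectors indexed by the points. -/
lemma reduce {X : Type} [Fintype X] {B : Finset (Finset X)} (hB : IsSTS B)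
    {A : Matrix (X ⊕ {b // b ∈ B}) (X ⊕ {b // b ∈ B}) ℂ} (hA : Fits (incGraph B) A)
    (hpt : ∀ b ∈ B, b.Nonempty) :
    ∃ (r : ℕ) (u : X → EuclideanSpace ℂ (Fin r)), r + B.card ≤ A.rank ∧
      ∀ x y z, ∀ b ∈ B, x ∈ b → y ∈ b → z ∈ b → x ≠ y → x ≠ z → y ≠ z →
        ∃ t : ℝ, 0 < t ∧ ⟪u x, u y⟫_ℂ * ⟪u y, u z⟫_ℂ * ⟪u z, u x⟫_ℂ = -(t : ℂ) := by
  classical
  obtain ⟨w, hw, hrank⟩ := exists_vectors hA.1
  have hadj : ∀ (x : X) (b : {b // b ∈ B}), ⟪w (.inl x), w (.inr b)⟫_ℂ ≠ 0 ↔ x ∈ b.1 := by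
    intro x b
    rw [hw]
    exact hA.2 _ _ (by simp)
  have hxy : ∀ x y : X, x ≠ y → ⟪w (.inl x), w (.inl y)⟫_ℂ = 0 := by
    intro x y hne
    rw [hw]
    by_contra h
    exact (hA.2 (.inl x) (.inl y) (by simpa using hne)).1 h
  have hbb : ∀ b c : {b // b ∈ B}, b ≠ c → ⟪w (.inr b), w (.inr c)⟫_ℂ = 0 := by
    intro b c hne
    rw [hw]
    by_contra h
    exact (hA.2 (.inr b) (.inr c) (by simpa using hne)).1 h
  have hb0 : ∀ b : {b // b ∈ B}, w (.inr b) ≠ 0 := by
    intro b h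
    obtain ⟨x, hx⟩ := hpt b.1 b.2
    have := (hadj x b).2 hx
    rw [h, inner_zero_right] at this
    exact this rfl
  set q : {b // b ∈ B} → ℂ := fun b => ⟪w (.inr b), w (.inr b)⟫_ℂ with hq
  have hq0 : ∀ b, q b ≠ 0 := fun b => inner_self_ne_zero.2 (hb0 b)
  -- the projected vectors
  set u : X → EuclideanSpace ℂ (X ⊕ {b // b ∈ B}) := fun x =>
    w (.inl x) - ∑ b, (⟪w (.inr b), w (.inl x)⟫_ℂ / q b) • w (.inr b) with hu
  have hub : ∀ x b, ⟪w (.inr b), u x⟫_ℂ = 0 := by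
    intro x b
    rw [hu]
    simp only [inner_sub_right, inner_sum, inner_smul_right]
    rw [Finset.sum_eq_single b]
    · show _ - _ * q b = 0
      rw [div_mul_cancel₀ _ (hq0 b), sub_self]
    · intro c _ hc
      rw [hbb b c hc.symm, mul_zero]
    · intro h; exact absurd (Finset.mem_univ _) h
  have huu : ∀ x y, x ≠ y → ∀ b : {b // b ∈ B}, x ∈ b.1 → y ∈ b.1 →
      ⟪u x, u y⟫_ℂ = -(⟪w (.inl x), w (.inr b)⟫_ℂ * ⟪w (.inr b), w (.inl y)⟫_ℂ / q b) := by
    intro x y hne b hxb hyb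
    have h1 : ⟪u x, u y⟫_ℂ = ⟪w (.inl x), u y⟫_ℂ := by
      have hux : u x = w (.inl x) - ∑ b, (⟪w (.inr b), w (.inl x)⟫_ℂ / q b) • w (.inr b) := rfl
      rw [hux, inner_sub_left, sum_inner, Finset.sum_eq_zero, sub_zero]
      intro c _
      rw [inner_smul_left, hub y c, mul_zero]
    rw [h1, hu]
    simp only [inner_sub_right, inner_sum, inner_smul_right]
    rw [hxy x y hne, zero_sub, Finset.sum_eq_single b]
    · ring
    · intro c _ hc
      by_cases hxc : x ∈ c.1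
      · by_cases hyc : y ∈ c.1
        · obtain ⟨b0, _, hb0⟩ := hB.cover x y hne
          have e1 := hb0 c.1 ⟨c.2, hxc, hyc⟩
          have e2 := hb0 b.1 ⟨b.2, hxb, hyb⟩
          exact absurd (Subtype.ext (e1.trans e2.symm)) hc
        · have : ⟪w (.inr c), w (.inl y)⟫_ℂ = 0 := by
            rw [← inner_conj_symm]
            by_contra h
            exact hyc ((hadj y c).1 fun h' => h (by rw [h', map_zero]))
          rw [this, zero_div, zero_mul]
      · have : ⟪w (.inl x), w (.inr c)⟫_ℂ = 0 := by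
          by_contra h
          exact hxc ((hadj x c).1 h)
        rw [this, mul_zero]
    · intro h; exact absurd (Finset.mem_univ _) h
  -- dimensions
  set S := Submodule.span ℂ (Set.range u) with hS
  set T := Submodule.span ℂ (Set.range fun b : {b // b ∈ B} => w (.inr b)) with hT
  have hTdim : Module.finrank ℂ T = B.card := by
    have hli : LinearIndependent ℂ (fun b : {b // b ∈ B} => w (.inr b)) :=
      linearIndependent_of_ne_zero_of_inner_eq_zero hb0 (fun b c hbc => hbb b c hbc)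
    rw [hT, finrank_span_eq_card hli, Fintype.card_coe]
  have hortho : T ⟂ S := by
    rw [hT, hS, Submodule.isOrtho_span]
    rintro _ ⟨b, rfl⟩ _ ⟨x, rfl⟩
    exact hub x b
  have hdisj : S ⊓ T = ⊥ := disjoint_iff.1 hortho.symm.disjoint
  have hle : S ⊔ T ≤ Submodule.span ℂ (Set.range w) := by
    have hTle : T ≤ Submodule.span ℂ (Set.range w) := by
      rw [hT]
      refine Submodule.span_mono ?_
      rintro _ ⟨b, rfl⟩
      exact ⟨_, rfl⟩
    refine sup_le ?_ hTle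
    rw [hS, Submodule.span_le]
    rintro _ ⟨x, rfl⟩
    rw [hu]
    refine Submodule.sub_mem _ (Submodule.subset_span ⟨_, rfl⟩) (Submodule.sum_mem _ fun b _ => ?_)
    exact Submodule.smul_mem _ _ (Submodule.subset_span ⟨_, rfl⟩)
  have hdim : Module.finrank ℂ S + B.card ≤ A.rank := by
    have h1 := Submodule.finrank_sup_add_finrank_inf_eq S T
    rw [hdisj, finrank_bot, add_zero, hTdim] at h1
    rw [← h1, ← hrank]
    exact Submodule.finrank_mono hle
  let φ := (stdOrthonormalBasis ℂ S).repr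
  have huS : ∀ x, u x ∈ S := fun x => Submodule.subset_span ⟨x, rfl⟩
  refine ⟨Module.finrank ℂ S, fun x => φ ⟨u x, huS x⟩, hdim, ?_⟩
  intro x y z b hb hx hy hz hxy' hxz hyz
  simp only [LinearIsometryEquiv.inner_map_map, Submodule.coe_inner]
  rw [huu x y hxy' ⟨b, hb⟩ hx hy, huu y z hyz ⟨b, hb⟩ hy hz, huu z x hxz.symm ⟨b, hb⟩ hz hx]
  set bb : {b // b ∈ B} := ⟨b, hb⟩ with hbbdef
  have hqr : q bb = ((‖w (.inr bb)‖ ^ 2 : ℝ) : ℂ) := by
    rw [hq]; simp only [inner_self_eq_norm_sq_to_K]; push_cast; rfl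
  have hc : ∀ x, ⟪w (.inr bb), w (.inl x)⟫_ℂ * ⟪w (.inl x), w (.inr bb)⟫_ℂ =
      ((‖⟪w (.inl x), w (.inr bb)⟫_ℂ‖ ^ 2 : ℝ) : ℂ) := by
    intro x
    rw [← inner_conj_symm (w (.inr bb)) (w (.inl x)), RCLike.conj_mul]
    push_cast
    rfl
  refine ⟨‖⟪w (.inl x), w (.inr bb)⟫_ℂ‖ ^ 2 * ‖⟪w (.inl y), w (.inr bb)⟫_ℂ‖ ^ 2 *
    ‖⟪w (.inl z), w (.inr bb)⟫_ℂ‖ ^ 2 / (‖w (.inr bb)‖ ^ 2) ^ 3, ?_, ?_⟩
  · have h1 := norm_pos_iff.2 ((hadj x bb).2 hx)
    have h2 := norm_pos_iff.2 ((hadj y bb).2 hy)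
    have h3 := norm_pos_iff.2 ((hadj z bb).2 hz)
    have h4 := norm_pos_iff.2 (hb0 bb)
    positivity
  · have h1 := hc x
    have h2 := hc y
    have h3 := hc z
    have h4 := hq0 bb
    rw [hqr] at h4 ⊢
    push_cast at h1 h2 h3 h4 ⊢
    rw [← h1, ← h2, ← h3]
    field_simp

end Pool.Agent.Q206.STS
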