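import Mathlib
import Pool.Agent.Q206.STS.Lower

set_option autoImplicit false

/-!
# Systems all of whose colourings have monochromatic blocks
-/

namespace Pool.Agent.Q206.STS

open scoped ComplexOrder InnerProductSpace MatrixOrder

/-- A finite colouring of the unit sphere with classes of small diameter. -/
lemma sphere_cover (r : ℕ) : ∃ (N : ℕ) (κ : EuclideanSpace ℂ (Fin r) → Fin N),
    ∀ a b, ‖a‖ = 1 → ‖b‖ = 1 → κ a = κ b → ‖a - b‖ < 1 / 4 := by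
  classical
  have hc : IsCompact (Metric.sphere (0 : EuclideanSpace ℂ (Fin r)) 1) := isCompact_sphere _ _
  obtain ⟨t, _, htf, hcov⟩ := hc.finite_cover_balls (e := 1 / 8) (by norm_num)
  have hex : ∀ a : EuclideanSpace ℂ (Fin r), ∃ o : Option (htf.toFinset : Finset _),
      ‖a‖ = 1 → ∃ c : (htf.toFinset : Finset _), o = some c ∧ ‖a - c.1‖ < 1 / 8 := by
    intro a
    by_cases ha : ‖a‖ = 1
    · have : a ∈ ⋃ x ∈ t, Metric.ball x (1 / 8) := hcov (by simpa using ha)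
      obtain ⟨c, hct, hc⟩ := Set.mem_iUnion₂.1 this
      refine ⟨some ⟨c, htf.mem_toFinset.2 hct⟩, fun _ => ⟨_, rfl, ?_⟩⟩
      rwa [← dist_eq_norm]
    · exact ⟨none, fun h => absurd h ha⟩
  choose o ho using hex
  let e := Fintype.equivFin (Option (htf.toFinset : Finset (EuclideanSpace ℂ (Fin r))))
  refine ⟨_, fun a => e (o a), ?_⟩
  intro a b ha hb hab
  have hab' : o a = o b := e.injective hab
  obtain ⟨c, hc1, hc2⟩ := ho a ha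
  obtain ⟨c', hc1', hc2'⟩ := ho b hb
  have hcc : c = c' := by
    rw [hc1, hc1'] at hab'
    exact Option.some.inj hab'
  subst hcc
  calc ‖a - b‖ = ‖(a - c.1) - (b - c.1)‖ := by congr 1; abel
    _ ≤ ‖a - c.1‖ + ‖b - c.1‖ := norm_sub_le _ _
    _ < 1 / 4 := by linarith

lemma near_one {r : ℕ} {a b : EuclideanSpace ℂ (Fin r)} (ha : ‖a‖ = 1)
    (hab : ‖a - b‖ < 1 / 4) : ‖⟪a, b⟫_ℂ - 1‖ < 1 / 4 := by
  have h1 : ⟪a, b⟫_ℂ - 1 = ⟪a, b - a⟫_ℂ := by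
    rw [inner_sub_right, inner_self_eq_norm_sq_to_K, ha]
    simp
  rw [h1]
  calc ‖⟪a, b - a⟫_ℂ‖ ≤ ‖a‖ * ‖b - a‖ := norm_inner_le_norm _ _
    _ < 1 / 4 := by rw [ha, one_mul, norm_sub_rev]; exact hab

lemma prod_re_pos {z₁ z₂ z₃ : ℂ} (h1 : ‖z₁ - 1‖ < 1 / 4) (h2 : ‖z₂ - 1‖ < 1 / 4)
    (h3 : ‖z₃ - 1‖ < 1 / 4) : 0 < (z₁ * z₂ * z₃).re := by
  set a := z₁ - 1
  set b := z₂ - 1
  set c := z₃ - 1
  have e : z₁ * z₂ * z₃ - 1 = a + b + c + a * b + b * c + a * c + a * b * c := by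
    simp only [a, b, c]; ring
  have hn : ‖z₁ * z₂ * z₃ - 1‖ < 1 := by
    rw [e]
    have ha := norm_nonneg a
    have hb := norm_nonneg b
    have hc := norm_nonneg c
    have t1 : ‖a * b‖ ≤ 1 / 16 := by rw [norm_mul]; nlinarith
    have t2 : ‖b * c‖ ≤ 1 / 16 := by rw [norm_mul]; nlinarith
    have t3 : ‖a * c‖ ≤ 1 / 16 := by rw [norm_mul]; nlinarith
    have t4 : ‖a * b * c‖ ≤ 1 / 64 := by
      rw [norm_mul]
      nlinarith [norm_nonneg (a * b)]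
    calc ‖a + b + c + a * b + b * c + a * c + a * b * c‖
        ≤ ‖a‖ + ‖b‖ + ‖c‖ + ‖a * b‖ + ‖b * c‖ + ‖a * c‖ + ‖a * b * c‖ := by
          refine (norm_add_le _ _).trans (add_le_add_left ?_ _)
          refine (norm_add_le _ _).trans (add_le_add_left ?_ _)
          refine (norm_add_le _ _).trans (add_le_add_left ?_ _)
          refine (norm_add_le _ _).trans (add_le_add_left ?_ _)
          refine (norm_add_le _ _).trans (add_le_add_left ?_ _)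
          exact norm_add_le _ _
      _ < 1 := by linarith
  have hre : |(z₁ * z₂ * z₃ - 1).re| < 1 := (Complex.abs_re_le_norm _).trans_lt hn
  rw [Complex.sub_re, Complex.one_re, abs_lt] at hre
  linarith [hre.1]

/-- Every colouring of the points with `N` colours has a monochromatic block. -/
def Mono {X : Type} (N : ℕ) (B : Finset (Finset X)) : Prop :=
  ∀ c : X → Fin N, ∃ b ∈ B, ∃ x y z, x ∈ b ∧ y ∈ b ∧ z ∈ b ∧ x ≠ y ∧ x ≠ z ∧ y ≠ z ∧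
    c x = c y ∧ c y = c z

lemma Mono.mono {X : Type} {N M : ℕ} (h : N ≤ M) {B : Finset (Finset X)} (hM : Mono M B) :
    Mono N B := by
  intro c
  obtain ⟨b, hb, x, y, z, h1, h2, h3, h4, h5, h6, h7, h8⟩ := hM fun x => Fin.castLE h (c x)
  exact ⟨b, hb, x, y, z, h1, h2, h3, h4, h5, h6, Fin.castLE_injective h h7,
    Fin.castLE_injective h h8⟩

lemma no_vectors {X : Type} {r : ℕ} {B : Finset (Finset X)} :
    ∃ N, ∀ (X : Type) (B : Finset (Finset X)), Mono N B →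
      ∀ u : X → EuclideanSpace ℂ (Fin r), ¬ ∀ x y z, ∀ b ∈ B, x ∈ b → y ∈ b → z ∈ b →
        x ≠ y → x ≠ z → y ≠ z →
        ∃ t : ℝ, 0 < t ∧ ⟪u x, u y⟫_ℂ * ⟪u y, u z⟫_ℂ * ⟪u z, u x⟫_ℂ = -(t : ℂ) := by
  obtain ⟨N, κ, hκ⟩ := sphere_cover r
  refine ⟨N, fun X B hM u hu => ?_⟩
  obtain ⟨b, hb, x, y, z, hx, hy, hz, hxy, hxz, hyz, c1, c2⟩ :=
    hM fun x => κ (((‖u x‖⁻¹ : ℝ) : ℂ) • u x)
  obtain ⟨t, ht, hprod⟩ := hu x y z b hb hx hy hz hxy hxz hyz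
  have hne : ⟪u x, u y⟫_ℂ * ⟪u y, u z⟫_ℂ * ⟪u z, u x⟫_ℂ ≠ 0 := by
    rw [hprod]
    exact neg_ne_zero.2 (Complex.ofReal_ne_zero.2 ht.ne')
  have hx0 : u x ≠ 0 := by rintro h; rw [h] at hne; simp at hne
  have hy0 : u y ≠ 0 := by rintro h; rw [h] at hne; simp at hne
  have hz0 : u z ≠ 0 := by rintro h; rw [h] at hne; simp at hne
  have hunit : ∀ v : EuclideanSpace ℂ (Fin r), v ≠ 0 → ‖((‖v‖⁻¹ : ℝ) : ℂ) • v‖ = 1 := by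
    intro v hv
    rw [norm_smul, Complex.norm_real, norm_inv, norm_norm, inv_mul_cancel₀ (norm_ne_zero_iff.2 hv)]
  have n1 := near_one (hunit _ hx0) (hκ _ _ (hunit _ hx0) (hunit _ hy0) c1)
  have n2 := near_one (hunit _ hy0) (hκ _ _ (hunit _ hy0) (hunit _ hz0) c2)
  have n3 := near_one (hunit _ hz0) (hκ _ _ (hunit _ hz0) (hunit _ hx0) (c1.trans c2).symm)
  have hpos := prod_re_pos n1 n2 n3
  simp only [inner_smul_left, inner_smul_right, Complex.conj_ofReal] at hpos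
  have e : (((‖u y‖⁻¹ : ℝ) : ℂ) * (((‖u x‖⁻¹ : ℝ) : ℂ) * ⟪u x, u y⟫_ℂ)) *
      (((‖u z‖⁻¹ : ℝ) : ℂ) * (((‖u y‖⁻¹ : ℝ) : ℂ) * ⟪u y, u z⟫_ℂ)) *
      (((‖u x‖⁻¹ : ℝ) : ℂ) * (((‖u z‖⁻¹ : ℝ) : ℂ) * ⟪u z, u x⟫_ℂ)) =
      (((‖u x‖⁻¹ * ‖u y‖⁻¹ * ‖u z‖⁻¹) ^ 2 * (-t) : ℝ) : ℂ) := by
    have : (((‖u y‖⁻¹ : ℝ) : ℂ) * (((‖u x‖⁻¹ : ℝ) : ℂ) * ⟪u x, u y⟫_ℂ)) *
      (((‖u z‖⁻¹ : ℝ) : ℂ) * (((‖u y‖⁻¹ : ℝ) : ℂ) * ⟪u y, u z⟫_ℂ)) *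
      (((‖u x‖⁻¹ : ℝ) : ℂ) * (((‖u z‖⁻¹ : ℝ) : ℂ) * ⟪u z, u x⟫_ℂ)) =
      (((‖u x‖⁻¹ * ‖u y‖⁻¹ * ‖u z‖⁻¹) ^ 2 : ℝ) : ℂ) *
        (⟪u x, u y⟫_ℂ * ⟪u y, u z⟫_ℂ * ⟪u z, u x⟫_ℂ) := by
      push_cast; ring
    rw [this, hprod]
    push_cast; ring
  have e' : (((‖u x‖⁻¹ : ℝ) : ℂ) * (((‖u y‖⁻¹ : ℝ) : ℂ) * ⟪u x, u y⟫_ℂ)) *
      (((‖u y‖⁻¹ : ℝ) : ℂ) * (((‖u z‖⁻¹ : ℝ) : ℂ) * ⟪u y, u z⟫_ℂ)) *
      (((‖u z‖⁻¹ : ℝ) : ℂ) * (((‖u x‖⁻¹ : ℝ) : ℂ) * ⟪u z, u x⟫_ℂ)) =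
      (((‖u x‖⁻¹ * ‖u y‖⁻¹ * ‖u z‖⁻¹) ^ 2 * (-t) : ℝ) : ℂ) := by
    rw [← e]; ring
  have hneg : ((‖u x‖⁻¹ * ‖u y‖⁻¹ * ‖u z‖⁻¹) ^ 2 * (-t) : ℝ) ≤ 0 := by
    have : 0 ≤ (‖u x‖⁻¹ * ‖u y‖⁻¹ * ‖u z‖⁻¹) ^ 2 := by positivity
    nlinarith
  first
  | rw [e, Complex.ofReal_re] at hpos; linarith
  | rw [e', Complex.ofReal_re] at hpos; linarith

/-- The lower bound. -/
theorem lt_msr (K : ℕ) : ∃ N, ∀ (X : Type) [Fintype X] (B : Finset (Finset X)), IsSTS B →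
    Mono N B → B.card + K < msr (incGraph B) := by
  have h := fun r : ℕ => @no_vectors (Fin 1) r ∅
  choose N hN using h
  refine ⟨(Finset.range (K + 1)).sup N, fun X _ B hB hM => ?_⟩
  by_contra hcon
  push Not at hcon
  obtain ⟨A, hA, hr⟩ := exists_rank (incGraph B)
  obtain ⟨r, u, h1, h2⟩ := reduce hB hA (fun b hb => by
    rw [← Finset.card_pos, hB.card_three b hb]; norm_num)
  have hrK : r ≤ K := by omega
  exact hN r X B (hM.mono (Finset.le_sup (f := N) (Finset.mem_range.2 (by omega)))) u h2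

end Pool.Agent.Q206.STS
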