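import Mathlib
import Pool.Agent.Q206.STS.Color

set_option autoImplicit false

/-!
# The projective Steiner triple systems
-/

namespace Pool.Agent.Q206.STS

/-- Ramsey's theorem for triangles and many colours. -/
lemma ramsey (N : ℕ) : ∃ M : ℕ, ∀ (κ : Type) [DecidableEq κ] (S : Finset ℕ) (T : Finset κ)
    (c : ℕ → ℕ → κ), M ≤ S.card → T.card ≤ N → (∀ i ∈ S, ∀ j ∈ S, i < j → c i j ∈ T) →
      ∃ i ∈ S, ∃ j ∈ S, ∃ k ∈ S, i < j ∧ j < k ∧ c i j = c j k ∧ c j k = c i k := by
  induction N with
  | zero =>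
    refine ⟨2, fun κ _ S T c hS hT hc => ?_⟩
    have hT' : T = ∅ := Finset.card_eq_zero.1 (by omega)
    obtain ⟨a, ha, b, hb, hab⟩ := Finset.one_lt_card.1 (show 1 < S.card by omega)
    rcases lt_or_gt_of_ne hab with h | h
    · have := hc a ha b hb h
      rw [hT'] at this
      exact absurd this (Finset.notMem_empty _)
    · have := hc b hb a ha h
      rw [hT'] at this
      exact absurd this (Finset.notMem_empty _)
  | succ N ih =>
    obtain ⟨M, hM⟩ := ih
    refine ⟨(N + 1) * M + 2, fun κ _ S T c hS hT hc => ?_⟩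
    have hne : S.Nonempty := Finset.card_pos.1 (by omega)
    set a := S.min' hne with ha
    have haS : a ∈ S := Finset.min'_mem _ _
    have hlt : ∀ j ∈ S.erase a, a < j := by
      intro j hj
      have h1 := Finset.min'_le S j (Finset.mem_of_mem_erase hj)
      exact lt_of_le_of_ne h1 (Finset.ne_of_mem_erase hj).symm
    have hmaps : ∀ j ∈ S.erase a, c a j ∈ T := fun j hj =>
      hc a haS j (Finset.mem_of_mem_erase hj) (hlt j hj)
    have hcard : T.card * M < (S.erase a).card := by
      rw [Finset.card_erase_of_mem haS]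
      have : T.card * M ≤ (N + 1) * M := Nat.mul_le_mul_right _ hT
      omega
    obtain ⟨t, htT, ht⟩ := Finset.exists_lt_card_fiber_of_mul_lt_card_of_maps_to hmaps hcard
    set S' := (S.erase a).filter fun j => c a j = t with hS'
    have hsub : ∀ j ∈ S', j ∈ S ∧ a < j ∧ c a j = t := by
      intro j hj
      obtain ⟨h1, h2⟩ := Finset.mem_filter.1 hj
      exact ⟨Finset.mem_of_mem_erase h1, hlt j h1, h2⟩
    by_cases hex : ∃ i ∈ S', ∃ j ∈ S', i < j ∧ c i j = t
    · obtain ⟨i, hi, j, hj, hij, hct⟩ := hex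
      obtain ⟨i1, i2, i3⟩ := hsub i hi
      obtain ⟨j1, j2, j3⟩ := hsub j hj
      exact ⟨a, haS, i, i1, j, j1, i2, hij, by rw [i3, hct], by rw [hct, j3]⟩
    · push Not at hex
      obtain ⟨i, hi, j, hj, k, hk, h1, h2, h3, h4⟩ := hM κ S' (T.erase t) c ht.le
        (by rw [Finset.card_erase_of_mem htT]; omega) (by
          intro i hi j hj hij
          exact Finset.mem_erase.2 ⟨hex i hi j hj hij,
            hc i (hsub i hi).1 j (hsub j hj).1 hij⟩)
      exact ⟨i, (hsub i hi).1, j, (hsub j hj).1, k, (hsub k hk).1, h1, h2, h3, h4⟩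

/-- The points: the nonzero vectors of `𝔽₂ⁿ`. -/
abbrev PPt (n : ℕ) : Type := {v : Fin n → ZMod 2 // v ≠ 0}

lemma add_self {n : ℕ} (v : Fin n → ZMod 2) : v + v = 0 := by
  funext i
  exact CharTwo.add_self_eq_zero (v i)

lemma add_eq_zero' {n : ℕ} {v w : Fin n → ZMod 2} : v + w = 0 ↔ v = w := by
  constructor
  · intro h
    have h2 : v + w = w + w := by rw [h, add_self]
    exact add_right_cancel h2
  · rintro rfl; exact add_self v

/-- The third point of a line. -/
noncomputable def pτ (n : ℕ) (x y : PPt n) : PPt n :=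
  open Classical in if h : x.1 + y.1 ≠ 0 then ⟨x.1 + y.1, h⟩ else x

lemma pτ_val {n : ℕ} {x y : PPt n} (h : x ≠ y) : (pτ n x y).1 = x.1 + y.1 := by
  have h' : x.1 + y.1 ≠ 0 := fun h0 => h (Subtype.ext (add_eq_zero'.1 h0))
  unfold pτ
  rw [dif_pos h']

lemma pτ_third (n : ℕ) : Third (pτ n) where
  comm x y h := by
    apply Subtype.ext
    rw [pτ_val h, pτ_val h.symm, add_comm]
  ne x y h := by
    intro h'
    have := congrArg Subtype.val h'
    rw [pτ_val h] at this
    exact y.2 (add_eq_left.1 this)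
  inv x y h := by
    have h1 : x ≠ pτ n x y := by
      intro h'
      have := congrArg Subtype.val h'
      rw [pτ_val h] at this
      exact y.2 (add_eq_left.1 this.symm)
    apply Subtype.ext
    rw [pτ_val h1, pτ_val h, ← add_assoc, add_self, zero_add]

/-- The blocks of the projective system. -/
noncomputable def projB (n : ℕ) : Finset (Finset (PPt n)) :=
  open Classical in blocks (pτ n)

lemma projB_isSTS (n : ℕ) : IsSTS (projB n) := by
  classical
  exact (pτ_third n).isSTS

lemma card_PPt (n : ℕ) : Fintype.card (PPt n) = 2 ^ n - 1 := by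
  classical
  rw [Fintype.card_subtype_compl, Fintype.card_subtype_eq]
  simp

/-- The indicator of an interval. -/
def seg {n : ℕ} (i j : ℕ) : Fin n → ZMod 2 := fun k => if i ≤ k.1 ∧ k.1 < j then 1 else 0

lemma seg_ne {n i j : ℕ} (h : i < j) (hj : j ≤ n) : (seg i j : Fin n → ZMod 2) ≠ 0 := by
  intro h0
  have := congrFun h0 ⟨i, by omega⟩
  simp [seg, h] at this

lemma seg_add {n i j k : ℕ} (h1 : i < j) (h2 : j < k) :
    (seg i j + seg j k : Fin n → ZMod 2) = seg i k := by
  funext l
  simp only [Pi.add_apply, seg]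
  by_cases a : i ≤ l.1 <;> by_cases b : l.1 < j <;> by_cases c : l.1 < k
  all_goals
    first
    | (have b' : ¬ j ≤ l.1 := by omega
       simp [a, b, c, b']; done)
    | (have b' : j ≤ l.1 := by omega
       simp [a, b, c, b']; done)
    | omega

/-- Every colouring of a large projective system has a monochromatic block. -/
theorem projB_mono (N : ℕ) : ∃ n₀, ∀ n ≥ n₀, Mono N (projB n) := by
  classical
  obtain ⟨M, hM⟩ := ramsey (N + 1)
  refine ⟨M, fun n hn c => ?_⟩
  let col : ℕ → ℕ → Option (Fin N) := fun i j =>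
    if h : i < j ∧ j ≤ n then some (c ⟨seg i j, seg_ne h.1 h.2⟩) else none
  obtain ⟨i, hi, j, hj, k, hk, hij, hjk, e1, e2⟩ := hM (Option (Fin N)) (Finset.range (n + 1))
    Finset.univ col (by rw [Finset.card_range]; omega)
    (by rw [Finset.card_univ, Fintype.card_option, Fintype.card_fin])
    (fun _ _ _ _ _ => Finset.mem_univ _)
  have hin := Finset.mem_range.1 hi
  have hjn := Finset.mem_range.1 hj
  have hkn := Finset.mem_range.1 hk
  have hik : i < k := hij.trans hjk
  have c1 : col i j = some (c ⟨seg i j, seg_ne hij (by omega)⟩) := dif_pos ⟨hij, by omega⟩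
  have c2 : col j k = some (c ⟨seg j k, seg_ne hjk (by omega)⟩) := dif_pos ⟨hjk, by omega⟩
  have c3 : col i k = some (c ⟨seg i k, seg_ne hik (by omega)⟩) := dif_pos ⟨hik, by omega⟩
  rw [c1, c2] at e1
  rw [c2, c3] at e2
  set x : PPt n := ⟨seg i j, seg_ne hij (by omega)⟩ with hx
  set y : PPt n := ⟨seg j k, seg_ne hjk (by omega)⟩ with hy
  set z : PPt n := ⟨seg i k, seg_ne hik (by omega)⟩ with hz
  have hadd : x.1 + y.1 = z.1 := seg_add hij hjk
  have hxy : x ≠ y := by
    intro h
    have : x.1 + y.1 = 0 := by rw [h]; exact add_self _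
    exact z.2 (hadd ▸ this)
  have hτ : pτ n x y = z := Subtype.ext (by rw [pτ_val hxy, hadd])
  have hxz : x ≠ z := by
    intro h
    rw [← h] at hadd
    exact y.2 (add_eq_left.1 hadd)
  have hyz : y ≠ z := by
    intro h
    rw [← h] at hadd
    exact x.2 (add_eq_right.1 hadd)
  refine ⟨{x, y, z}, ?_, x, y, z, by simp, by simp, by simp, hxy, hxz, hyz,
    Option.some.inj e1, Option.some.inj e2⟩
  unfold projB
  exact mem_blocks.2 ⟨x, y, hxy, by rw [hτ]⟩

end Pool.Agent.Q206.STS
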