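import Mathlib
import Pool.Agent.Q206.STS.Bose
import Pool.Agent.Q206.STS.Proj

set_option autoImplicit false

/-!
# Two Steiner triple systems of the same order with different minimum semidefinite ranks
-/

namespace Pool.Agent.Q206.STS

open scoped ComplexOrder

/-- The number of blocks. -/
lemma IsSTS.six_mul {X : Type} [Fintype X] {B : Finset (Finset X)} (hB : IsSTS B) :
    6 * B.card = Fintype.card X * Fintype.card X - Fintype.card X := by
  classical
  have h1 : (Finset.univ : Finset X).offDiag = B.biUnion fun b => b.offDiag := by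
    ext ⟨x, y⟩
    simp only [Finset.mem_offDiag, Finset.mem_univ, true_and, Finset.mem_biUnion]
    constructor
    · intro h
      obtain ⟨b, ⟨hb, hx, hy⟩, _⟩ := hB.cover x y h
      exact ⟨b, hb, hx, hy, h⟩
    · rintro ⟨b, _, _, _, h⟩; exact h
  have h2 : (B.biUnion fun b => b.offDiag).card = ∑ b ∈ B, b.offDiag.card := by
    apply Finset.card_biUnion
    intro b hb c hc hne
    rw [Function.onFun, Finset.disjoint_left]
    rintro ⟨x, y⟩ hxb hxc
    rw [Finset.mem_offDiag] at hxb hxc
    obtain ⟨d, _, hd⟩ := hB.cover x y hxb.2.2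
    exact hne ((hd b ⟨hb, hxb.1, hxb.2.1⟩).trans (hd c ⟨hc, hxc.1, hxc.2.1⟩).symm)
  have h3 : ∑ b ∈ B, b.offDiag.card = ∑ b ∈ B, 6 := by
    refine Finset.sum_congr rfl fun b hb => ?_
    rw [Finset.offDiag_card, hB.card_three b hb]
  rw [← Finset.card_univ, ← Finset.offDiag_card, h1, h2, h3, Finset.sum_const, smul_eq_mul,
    mul_comm]

lemma msr_le_of_iso {V W : Type} [Fintype V] [Fintype W] {G : SimpleGraph V} {H : SimpleGraph W}
    (φ : G ≃g H) : msr G ≤ msr H := by
  classical
  obtain ⟨A, hA, hr⟩ := exists_rank H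
  refine Nat.sInf_le ⟨A.submatrix φ.toEquiv φ.toEquiv, ⟨hA.1.submatrix _, ?_⟩, ?_⟩
  · intro i j hij
    rw [Matrix.submatrix_apply, hA.2 _ _ (fun h => hij (φ.toEquiv.injective h))]
    exact φ.map_adj_iff
  · rw [← hr]
    exact Matrix.rank_submatrix A φ.toEquiv φ.toEquiv

lemma msr_eq_of_iso {X Y : Type} [Fintype X] [Fintype Y] {B : Finset (Finset X)}
    {C : Finset (Finset Y)} (h : Iso B C) : msr (incGraph B) = msr (incGraph C) := by
  obtain ⟨e, he⟩ := h
  let f : {b // b ∈ B} ≃ {c // c ∈ C} :=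
    (Equiv.finsetCongr e).subtypeEquiv fun b => by rw [Equiv.finsetCongr_apply]; exact he b
  have hf : ∀ b : {b // b ∈ B}, (f b).1 = b.1.map e.toEmbedding := fun b => rfl
  have hmem : ∀ (x : X) (b : {b // b ∈ B}), e x ∈ (f b).1 ↔ x ∈ b.1 := by
    intro x b
    rw [hf]
    constructor
    · intro h
      obtain ⟨y, hy, hxy⟩ := Finset.mem_map.1 h
      have : y = x := e.injective hxy
      rwa [← this]
    · intro h; exact Finset.mem_map_of_mem _ h
  let φ : incGraph B ≃g incGraph C :=
    { toEquiv := Equiv.sumCongr e f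
      map_rel_iff' := by
        rintro (x | b) (y | c)
        · exact Iff.rfl
        · exact hmem x c
        · exact hmem y b
        · exact Iff.rfl }
  exact le_antisymm (msr_le_of_iso φ) (msr_le_of_iso φ.symm)

theorem gap (K : ℕ) : ∃ (X Y : Type) (_ : Fintype X) (_ : Fintype Y) (B : Finset (Finset X))
    (C : Finset (Finset Y)), IsSTS B ∧ IsSTS C ∧ Fintype.card X = Fintype.card Y ∧ ¬ Iso B C ∧
      msr (incGraph B) + K < msr (incGraph C) := by
  classical
  obtain ⟨N, hN⟩ := lt_msr (9 + K)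
  obtain ⟨n₀, hn₀⟩ := projB_mono N
  set k := n₀ + 1 with hk
  obtain ⟨n, hn⟩ : ∃ n, 4 ^ k = 3 * n + 1 := by
    have h1 : ∀ k : ℕ, ∃ n, 4 ^ k = 3 * n + 1 := by
      intro k
      induction k with
      | zero => exact ⟨0, rfl⟩
      | succ k ih =>
        obtain ⟨n, hn⟩ := ih
        exact ⟨4 * n + 1, by rw [pow_succ, hn]; ring⟩
    exact h1 k
  have h4 : 4 ≤ 4 ^ k := by
    calc 4 = 4 ^ 1 := by norm_num
      _ ≤ 4 ^ k := Nat.pow_le_pow_right (by norm_num) (by omega)
  haveI : NeZero n := ⟨by omega⟩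
  obtain ⟨m, hm⟩ : ∃ m, n + 1 = 2 * m := by
    have h2 : 4 ^ k = 2 * (2 * 4 ^ (k - 1)) := by
      rw [hk, Nat.add_sub_cancel, pow_succ]; ring
    exact ⟨(n + 1) / 2, by omega⟩
  have hh : 2 * (m : ZMod n) = 1 := by
    have : ((n + 1 : ℕ) : ZMod n) = ((2 * m : ℕ) : ZMod n) := by rw [hm]
    push_cast at this
    rw [← this]
    simp
  have hcard : Fintype.card (ZMod n × Fin 3) = Fintype.card (PPt (2 * k)) := by
    rw [card_PPt, Fintype.card_prod, ZMod.card, Fintype.card_fin, pow_mul]
    norm_num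
    omega
  have hblocks : (boseB n (m : ZMod n)).card = (projB (2 * k)).card := by
    have h1 := (boseB_isSTS n hh).six_mul
    have h2 := (projB_isSTS (2 * k)).six_mul
    rw [hcard] at h1
    omega
  have hup := msr_bose n hh
  have hlow := hN _ (projB (2 * k)) (projB_isSTS _) (hn₀ _ (by omega))
  have hlt : msr (incGraph (boseB n (m : ZMod n))) + K < msr (incGraph (projB (2 * k))) := by
    omega
  refine ⟨ZMod n × Fin 3, PPt (2 * k), inferInstance, inferInstance, boseB n (m : ZMod n),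
    projB (2 * k), boseB_isSTS n hh, projB_isSTS _, hcard, ?_, hlt⟩
  intro hiso
  have := msr_eq_of_iso hiso
  omega

end Pool.Agent.Q206.STS
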